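import Mathlib

/-!
# Protocols of two parties whose coins have an affine part
-/

set_option autoImplicit false

namespace Pool.Agent.T9h61.OTC

open Finset

/-- A party together with its input. Its coins are a random branch `s` in `Fin a` with the
distribution `init` and an independent uniform vector `u` of `F ^ r`; `msg τ s u` is its next message
when `τ` is the list of all messages that both parties have sent so far. -/
structure Party (F : Type) (a r : ℕ) where
  init : Fin a → ℝ
  init_nonneg : ∀ s, 0 ≤ init s
  init_sum : ∑ s, init s = 1
  msg : List F → Fin a → (Fin r → F) → F

/-- A protocol of `n` rounds with messages in `F`. In the round `j` the sender sends the message if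
`turn j` is true, the receiver if it is false. The sender has an input in `Y`, the receiver has an
input in `X` and an output in `Z`, which depends on its input, the transcript and its coins. -/
structure Protocol (F X Y Z : Type) (a r b t : ℕ) where
  n : ℕ
  turn : ℕ → Bool
  sender : Y → Party F a r
  receiver : X → Party F b t
  out : X → List F → Fin b → (Fin t → F) → Z

section defs

variable {F X Y Z : Type} {a r b t : ℕ}

/-- for each transcript and each branch the next message is an affine function of `u` -/
def Party.Affine [CommRing F] (A : Party F a r) : Prop :=
  ∀ τ s, ∃ (c : F) (m : Fin r → F), ∀ u, A.msg τ s u = c + ∑ i, m i * u i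

/-- the mean over the coins -/
noncomputable def Party.mean [Fintype F] (A : Party F a r) (h : Fin a → (Fin r → F) → ℝ) : ℝ :=
  ∑ s, A.init s * ((∑ u : Fin r → F, h s u) / (Fintype.card F : ℝ) ^ r)

/-- with the coins `s`, `u` the party sends the messages `j` of the transcript with `turn j = me` -/
def Party.Agrees (A : Party F a r) (turn : ℕ → Bool) (me : Bool) (τ : List F) (s : Fin a)
    (u : Fin r → F) : Prop :=
  ∀ j, ∀ hj : j < τ.length, turn j = me → τ[j] = A.msg (τ.take j) s u

open Classical in
/-- the probability that the coins agree with the transcript and satisfy `h` -/
noncomputable def Party.prob [Fintype F] (A : Party F a r) (turn : ℕ → Bool) (me : Bool)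
    (h : Fin a → (Fin r → F) → Prop) (τ : List F) : ℝ :=
  A.mean fun s u => if A.Agrees turn me τ s u ∧ h s u then 1 else 0

/-- the transcript of the first rounds, for the coins `s`, `u` of the sender and `s'`, `u'` of the
receiver -/
def Protocol.run (P : Protocol F X Y Z a r b t) (x : X) (y : Y) (s : Fin a) (u : Fin r → F)
    (s' : Fin b) (u' : Fin t → F) : ℕ → List F
  | 0 => []
  | j + 1 => P.run x y s u s' u' j ++
      [if P.turn j = true then (P.sender y).msg (P.run x y s u s' u' j) s u
        else (P.receiver x).msg (P.run x y s u s' u' j) s' u']

/-- the expectation of a function of the transcript -/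
noncomputable def Protocol.expect [Fintype F] (P : Protocol F X Y Z a r b t) (x : X) (y : Y)
    (g : List F → ℝ) : ℝ :=
  (P.sender y).mean fun s u => (P.receiver x).mean fun s' u' => g (P.run x y s u s' u' P.n)

open Classical in
/-- the probability that the output of the receiver is not `f x y` -/
noncomputable def Protocol.error [Fintype F] (P : Protocol F X Y Z a r b t) (f : X → Y → Z)
    (x : X) (y : Y) : ℝ :=
  (P.sender y).mean fun s u => (P.receiver x).mean fun s' u' =>
    if P.out x (P.run x y s u s' u' P.n) s' u' = f x y then 0 else 1

/-- the output is correct with probability at least `1 - δ` -/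
def Protocol.Correct [Fintype F] (P : Protocol F X Y Z a r b t) (f : X → Y → Z) (δ : ℝ) : Prop :=
  ∀ x y, P.error f x y ≤ δ

/-- the tests do not distinguish the inputs of the receiver -/
def Protocol.ReceiverPrivate [Fintype F] (P : Protocol F X Y Z a r b t)
    (T : (List F → ℝ) → Prop) (ε : ℝ) : Prop :=
  ∀ x x' y g, T g → |P.expect x y g - P.expect x' y g| ≤ ε

/-- the tests do not distinguish inputs of the sender with the same output -/
def Protocol.SenderPrivate [Fintype F] (P : Protocol F X Y Z a r b t) (f : X → Y → Z)
    (T : (List F → ℝ) → Prop) (ε : ℝ) : Prop :=
  ∀ x y y' g, f x y = f x y' → T g → |P.expect x y g - P.expect x y' g| ≤ ε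

open Classical in
/-- The tests, made from the programs of the two parties of `P`. If the sender has at most `K`
branches and affine messages for the inputs `y`, `y'`, then the test compares the probability that
the sender with input `y` agrees with the transcript with twice that for the input `y'`. If the
receiver has at most `K` branches and affine messages for the input `x`, then the test draws random
coins of the receiver with input `x` that agree with the transcript and accepts if the output is `z`.
(The coins that agree with a transcript are the solutions of at most `K` systems of linear
equations.) -/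
def Protocol.IsTest [CommRing F] [Fintype F] (P : Protocol F X Y Z a r b t) (K : ℕ)
    (g : List F → ℝ) : Prop :=
  (∃ y y', a ≤ K ∧ (P.sender y).Affine ∧ (P.sender y').Affine ∧
    ∀ τ, g τ = if (P.sender y).prob P.turn true (fun _ _ => True) τ ≤
      2 * (P.sender y').prob P.turn true (fun _ _ => True) τ then 1 else 0) ∨
  ∃ x z, b ≤ K ∧ (P.receiver x).Affine ∧
    ∀ τ, g τ = (P.receiver x).prob P.turn false (fun s u => P.out x τ s u = z) τ /
      (P.receiver x).prob P.turn false (fun _ _ => True) τ

end defs

end Pool.Agent.T9h61.OTC
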