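import Pool.Agent.T9h61.OTC.Defs

/-!
# A party whose coins enter affinely, up to few branches
-/

set_option autoImplicit false

namespace Pool.Agent.T9h61.OTC

open Finset

variable {F X Y Z : Type} {a r b t : ℕ}

/-! ### Means -/

section mean

variable [Fintype F]

theorem Party.mean_mono (A : Party F a r) {h h' : Fin a → (Fin r → F) → ℝ}
    (hh : ∀ s u, h s u ≤ h' s u) : A.mean h ≤ A.mean h' :=
  sum_le_sum fun s _ => mul_le_mul_of_nonneg_left
    (div_le_div_of_nonneg_right (sum_le_sum fun u _ => hh s u) (by positivity)) (A.init_nonneg s)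

theorem Party.mean_nonneg (A : Party F a r) {h : Fin a → (Fin r → F) → ℝ}
    (hh : ∀ s u, 0 ≤ h s u) : 0 ≤ A.mean h :=
  sum_nonneg fun s _ => mul_nonneg (A.init_nonneg s)
    (div_nonneg (sum_nonneg fun u _ => hh s u) (by positivity))

theorem Party.mean_sum (A : Party F a r) {ι : Type} (S : Finset ι)
    (h : ι → Fin a → (Fin r → F) → ℝ) :
    A.mean (fun s u => ∑ i ∈ S, h i s u) = ∑ i ∈ S, A.mean (h i) := by
  unfold Party.mean
  rw [sum_comm]
  refine sum_congr rfl fun s _ => ?_
  rw [← mul_sum, ← sum_div, sum_comm]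

theorem Party.mean_mul_left (A : Party F a r) (c : ℝ) (h : Fin a → (Fin r → F) → ℝ) :
    A.mean (fun s u => c * h s u) = c * A.mean h := by
  unfold Party.mean
  rw [mul_sum]
  refine sum_congr rfl fun s _ => ?_
  rw [← mul_sum]
  ring

theorem Party.mean_mul_right (A : Party F a r) (c : ℝ) (h : Fin a → (Fin r → F) → ℝ) :
    A.mean (fun s u => h s u * c) = A.mean h * c := by
  rw [mul_comm, ← A.mean_mul_left]
  congr 1
  funext s u
  ring

theorem Party.mean_sub (A : Party F a r) (h h' : Fin a → (Fin r → F) → ℝ) :
    A.mean (fun s u => h s u - h' s u) = A.mean h - A.mean h' := by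
  unfold Party.mean
  rw [← sum_sub_distrib]
  refine sum_congr rfl fun s _ => ?_
  rw [sum_sub_distrib]
  ring

theorem Party.mean_one [Nonempty F] (A : Party F a r) : A.mean (fun _ _ => 1) = 1 := by
  unfold Party.mean
  have h : (Fintype.card F : ℝ) ^ r ≠ 0 := by positivity
  simp only [sum_const, card_univ, Fintype.card_pi, prod_const, Fintype.card_fin, nsmul_eq_mul,
    mul_one, Nat.cast_pow, div_self h]
  exact A.init_sum

theorem Party.prob_nonneg (A : Party F a r) (turn : ℕ → Bool) (me : Bool)
    (h : Fin a → (Fin r → F) → Prop) (τ : List F) : 0 ≤ A.prob turn me h τ :=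
  A.mean_nonneg fun s u => by split <;> norm_num

theorem Party.prob_le (A : Party F a r) (turn : ℕ → Bool) (me : Bool)
    (h : Fin a → (Fin r → F) → Prop) (τ : List F) :
    A.prob turn me h τ ≤ A.prob turn me (fun _ _ => True) τ :=
  A.mean_mono fun s u => by
    by_cases h1 : A.Agrees turn me τ s u <;> by_cases h2 : h s u <;> simp [h1, h2]

end mean

/-! ### Transcripts -/

theorem Party.agrees_append (A : Party F a r) (turn : ℕ → Bool) (me : Bool) (τ : List F) (m : F)
    (s : Fin a) (u : Fin r → F) :
    A.Agrees turn me (τ ++ [m]) s u ↔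
      A.Agrees turn me τ s u ∧ (turn τ.length = me → m = A.msg τ s u) := by
  constructor
  · intro h
    refine ⟨fun j hj ht => ?_, fun ht => ?_⟩
    · have := h j (by simp; omega) ht
      rwa [List.getElem_append_left hj, List.take_append_of_le_length hj.le] at this
    · have := h τ.length (by simp) ht
      simpa using this
  · rintro ⟨h1, h2⟩ j hj ht
    rcases Nat.lt_or_ge j τ.length with h | h
    · rw [List.getElem_append_left h, List.take_append_of_le_length h.le]
      exact h1 j h ht
    · have e : j = τ.length := by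
        simp at hj; omega
      subst e
      simpa using h2 ht

theorem Protocol.eq_run_iff (P : Protocol F X Y Z a r b t) (x : X) (y : Y) (s : Fin a)
    (u : Fin r → F) (s' : Fin b) (u' : Fin t → F) (τ : List F) :
    τ = P.run x y s u s' u' τ.length ↔
      (P.sender y).Agrees P.turn true τ s u ∧ (P.receiver x).Agrees P.turn false τ s' u' := by
  induction τ using List.reverseRecOn with
  | nil =>
    constructor
    · intro _
      exact ⟨fun j hj => by simp at hj, fun j hj => by simp at hj⟩
    · intro _; rfl
  | append_singleton τ m ih =>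
    rw [Party.agrees_append, Party.agrees_append]
    have e : (τ ++ [m]).length = τ.length + 1 := by simp
    rw [e, Protocol.run]
    have hl : (P.run x y s u s' u' τ.length).length = τ.length := by
      generalize τ.length = k
      induction k with
      | zero => rfl
      | succ k ihk => rw [Protocol.run, List.length_append, ihk]; rfl
    have hinj : ∀ (σ : List F) (m' : F), τ ++ [m] = σ ++ [m'] ↔ τ = σ ∧ [m] = [m'] :=
      fun σ m' => ⟨fun h => List.append_inj' h rfl, fun h => by rw [h.1, h.2]⟩
    rw [hinj, ih]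
    constructor
    · rintro ⟨⟨h1, h2⟩, h3⟩
      have h4 := ih.2 ⟨h1, h2⟩
      rw [← h4] at h3
      have h3' := List.cons.inj h3
      refine ⟨⟨h1, fun ht => ?_⟩, h2, fun ht => ?_⟩
      · rw [h3'.1, if_pos ht]
      · rw [h3'.1, if_neg (by rw [ht]; simp)]
    · rintro ⟨⟨h1, h3⟩, h2, h5⟩
      have h4 := ih.2 ⟨h1, h2⟩
      refine ⟨⟨h1, h2⟩, ?_⟩
      rw [← h4]
      by_cases ht : P.turn τ.length = true
      · rw [if_pos ht, h3 ht]
      · rw [if_neg ht, h5 (by simpa using ht)]

section sums

variable [Fintype F]

open Classical in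
/-- sums over transcripts -/
theorem Protocol.sum_run (P : Protocol F X Y Z a r b t) (x : X) (y : Y) (s : Fin a)
    (u : Fin r → F) (s' : Fin b) (u' : Fin t → F) (G : List F → ℝ) :
    G (P.run x y s u s' u' P.n) = ∑ τ : Fin P.n → F,
      (if (P.sender y).Agrees P.turn true (List.ofFn τ) s u then (1 : ℝ) else 0) *
      ((if (P.receiver x).Agrees P.turn false (List.ofFn τ) s' u' then 1 else 0) *
        G (List.ofFn τ)) := by
  have hl : ∀ k, (P.run x y s u s' u' k).length = k := by
    intro k
    induction k with
    | zero => rfl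
    | succ k ihk => rw [Protocol.run, List.length_append, ihk]; rfl
  set ρ := P.run x y s u s' u' P.n with hρ
  have hlen : ρ.length = P.n := hl P.n
  -- the transcript as a function
  set τ₀ : Fin P.n → F := fun i => ρ[i.1]'(by rw [hlen]; exact i.2) with hτ₀
  have h0 : List.ofFn τ₀ = ρ := by
    apply List.ext_getElem
    · simp [hlen]
    · intro i h1 h2
      simp [hτ₀]
  have hiff : ∀ τ : Fin P.n → F, List.ofFn τ = ρ ↔
      (P.sender y).Agrees P.turn true (List.ofFn τ) s u ∧
      (P.receiver x).Agrees P.turn false (List.ofFn τ) s' u' := by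
    intro τ
    have := P.eq_run_iff x y s u s' u' (List.ofFn τ)
    rw [List.length_ofFn] at this
    exact this
  rw [Finset.sum_eq_single τ₀]
  · obtain ⟨h1, h2⟩ := (hiff τ₀).1 h0
    rw [if_pos h1, if_pos h2, h0, one_mul, one_mul]
  · intro τ _ hne
    by_cases h1 : (P.sender y).Agrees P.turn true (List.ofFn τ) s u
    · by_cases h2 : (P.receiver x).Agrees P.turn false (List.ofFn τ) s' u'
      · exact absurd (List.ofFn_injective (((hiff τ).2 ⟨h1, h2⟩).trans h0.symm)) hne
      · rw [if_neg h2]; ring
    · rw [if_neg h1]; ring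
  · intro h; exact absurd (mem_univ _) h

open Classical in
/-- the probability that the receiver agrees with the transcript and outputs `z` -/
noncomputable def Protocol.outProb (P : Protocol F X Y Z a r b t) (x : X) (z : Z) (τ : List F) : ℝ :=
  (P.receiver x).prob P.turn false (fun s' u' => P.out x τ s' u' = z) τ

/-- the probability that the sender agrees with the transcript -/
noncomputable def Protocol.v (P : Protocol F X Y Z a r b t) (y : Y) (τ : List F) : ℝ :=
  (P.sender y).prob P.turn true (fun _ _ => True) τ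

/-- the probability that the receiver agrees with the transcript -/
noncomputable def Protocol.w (P : Protocol F X Y Z a r b t) (x : X) (τ : List F) : ℝ :=
  (P.receiver x).prob P.turn false (fun _ _ => True) τ

theorem Protocol.expect_eq (P : Protocol F X Y Z a r b t) (x : X) (y : Y) (g : List F → ℝ) :
    P.expect x y g = ∑ τ : Fin P.n → F,
      P.v y (List.ofFn τ) * P.w x (List.ofFn τ) * g (List.ofFn τ) := by
  classical
  unfold Protocol.expect
  simp_rw [P.sum_run x y]
  simp_rw [Party.mean_sum, Party.mean_mul_left, Party.mean_mul_right]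
  refine sum_congr rfl fun τ _ => ?_
  rw [mul_assoc]
  congr 1
  · unfold Protocol.v Party.prob
    simp only [and_true]
  · congr 1
    unfold Protocol.w Party.prob
    simp only [and_true]

theorem Protocol.error_eq (P : Protocol F X Y Z a r b t) (f : X → Y → Z) (x : X) (y : Y) :
    P.error f x y = ∑ τ : Fin P.n → F, P.v y (List.ofFn τ) *
      (P.w x (List.ofFn τ) - P.outProb x (f x y) (List.ofFn τ)) := by
  classical
  unfold Protocol.error
  have h : ∀ (s : Fin a) (u : Fin r → F) (s' : Fin b) (u' : Fin t → F),
      (if P.out x (P.run x y s u s' u' P.n) s' u' = f x y then (0 : ℝ) else 1) =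
      ∑ τ : Fin P.n → F,
      (if (P.sender y).Agrees P.turn true (List.ofFn τ) s u then (1 : ℝ) else 0) *
      ((if (P.receiver x).Agrees P.turn false (List.ofFn τ) s' u' then 1 else 0) *
        (if P.out x (List.ofFn τ) s' u' = f x y then (0 : ℝ) else 1)) := fun s u s' u' =>
    P.sum_run x y s u s' u' (fun τ => if P.out x τ s' u' = f x y then (0 : ℝ) else 1)
  simp_rw [h]
  simp_rw [Party.mean_sum, Party.mean_mul_left, Party.mean_mul_right]
  refine sum_congr rfl fun τ _ => ?_
  congr 1
  · unfold Protocol.v Party.prob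
    simp only [and_true]
  · unfold Protocol.w Protocol.outProb Party.prob
    rw [← Party.mean_sub]
    congr 1
    funext s' u'
    by_cases h1 : (P.receiver x).Agrees P.turn false (List.ofFn τ) s' u' <;>
      by_cases h2 : P.out x (List.ofFn τ) s' u' = f x y <;> simp [h1, h2]

theorem Protocol.v_nonneg (P : Protocol F X Y Z a r b t) (y : Y) (τ : List F) : 0 ≤ P.v y τ :=
  Party.prob_nonneg _ _ _ _ _

theorem Protocol.w_nonneg (P : Protocol F X Y Z a r b t) (x : X) (τ : List F) : 0 ≤ P.w x τ :=
  Party.prob_nonneg _ _ _ _ _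

theorem Protocol.outProb_nonneg (P : Protocol F X Y Z a r b t) (x : X) (z : Z) (τ : List F) :
    0 ≤ P.outProb x z τ := Party.prob_nonneg _ _ _ _ _

theorem Protocol.outProb_le (P : Protocol F X Y Z a r b t) (x : X) (z : Z) (τ : List F) :
    P.outProb x z τ ≤ P.w x τ := Party.prob_le _ _ _ _ _

theorem Protocol.outProb_add_le (P : Protocol F X Y Z a r b t) (x : X) {z z' : Z} (hz : z ≠ z')
    (τ : List F) : P.outProb x z τ ≤ P.w x τ - P.outProb x z' τ := by
  classical
  unfold Protocol.outProb Protocol.w Party.prob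
  rw [← Party.mean_sub]
  refine Party.mean_mono _ fun s' u' => ?_
  by_cases h1 : (P.receiver x).Agrees P.turn false τ s' u'
  · by_cases h2 : P.out x τ s' u' = z
    · have h3 : P.out x τ s' u' ≠ z' := by rw [h2]; exact hz
      simp [h1, h2, h3, hz]
    · by_cases h3 : P.out x τ s' u' = z' <;> simp_all [hz.symm]
  · simp [h1]

theorem Protocol.expect_one [Nonempty F] (P : Protocol F X Y Z a r b t) (x : X) (y : Y) :
    P.expect x y (fun _ => 1) = 1 := by
  unfold Protocol.expect
  simp only [Party.mean_one]

theorem Protocol.expect_sub (P : Protocol F X Y Z a r b t) (x : X) (y : Y) (g h : List F → ℝ) :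
    P.expect x y (fun τ => g τ - h τ) = P.expect x y g - P.expect x y h := by
  rw [P.expect_eq, P.expect_eq, P.expect_eq, ← sum_sub_distrib]
  exact sum_congr rfl fun τ _ => by ring

section bounds

variable [Nonempty F] (P : Protocol F X Y Z a r b t) {f : X → Y → Z}

/-- the probability of the right output -/
theorem sum_out_ge (x : X) (y : Y) {δ : ℝ} (hc : P.Correct f δ) :
    1 - δ ≤ ∑ τ : Fin P.n → F, P.v y (List.ofFn τ) * P.outProb x (f x y) (List.ofFn τ) := by
  have h1 := hc x y
  rw [P.error_eq] at h1
  have h2 := P.expect_one x y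
  rw [P.expect_eq] at h2
  simp only [mul_one] at h2
  have h3 : ∑ τ : Fin P.n → F, P.v y (List.ofFn τ) *
      (P.w x (List.ofFn τ) - P.outProb x (f x y) (List.ofFn τ)) =
      ∑ τ : Fin P.n → F, P.v y (List.ofFn τ) * P.w x (List.ofFn τ) -
      ∑ τ : Fin P.n → F, P.v y (List.ofFn τ) * P.outProb x (f x y) (List.ofFn τ) := by
    rw [← sum_sub_distrib]
    exact sum_congr rfl fun τ _ => by ring
  linarith

omit [Nonempty F] in
theorem sum_out_le (x : X) (y : Y) {δ : ℝ} (hc : P.Correct f δ) {z : Z} (hz : z ≠ f x y) :
    ∑ τ : Fin P.n → F, P.v y (List.ofFn τ) * P.outProb x z (List.ofFn τ) ≤ δ := by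
  refine le_trans ?_ (hc x y)
  rw [P.error_eq]
  exact sum_le_sum fun τ _ => mul_le_mul_of_nonneg_left (P.outProb_add_le x hz _)
    (P.v_nonneg _ _)

/-- the conditional probability of the output `z` for the input `x`, given the transcript -/
noncomputable def Protocol.post (x : X) (z : Z) (τ : List F) : ℝ :=
  P.outProb x z τ / P.w x τ

theorem receiver_bound (T : (List F → ℝ) → Prop) {x x' : X} {y y' : Y} (h1 : f x y = f x y')
    (h2 : f x' y ≠ f x' y') (hT : T (P.post x' (f x' y'))) {δ ε ε' : ℝ} (hc : P.Correct f δ)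
    (hr : P.ReceiverPrivate T ε) (hs : P.SenderPrivate f T ε') : 1 ≤ 2 * δ + 2 * ε + ε' := by
  set g := P.post x' (f x' y') with hg
  have key : ∀ y, P.expect x' y g = ∑ τ : Fin P.n → F, P.v y (List.ofFn τ) *
      P.outProb x' (f x' y') (List.ofFn τ) := by
    intro y
    rw [P.expect_eq]
    refine sum_congr rfl fun τ _ => ?_
    rw [hg, Protocol.post, mul_assoc]
    congr 1
    rcases eq_or_ne (P.w x' (List.ofFn τ)) 0 with h | h
    · have := P.outProb_le x' (f x' y') (List.ofFn τ)
      have := P.outProb_nonneg x' (f x' y') (List.ofFn τ)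
      rw [h]; simp; linarith
    · field_simp
  have e1 := sum_out_ge P x' y' hc
  have e2 := sum_out_le P x' y hc h2.symm
  rw [← key] at e1 e2
  have a1 := abs_le.1 (hr x x' y' g hT)
  have a2 := abs_le.1 (hr x x' y g hT)
  have a3 := abs_le.1 (hs x y y' g h1 hT)
  linarith [a1.1, a1.2, a2.1, a2.2, a3.1, a3.2]

open Classical in
/-- the transcript is at least half as likely for the input `y'` as for the input `y` -/
noncomputable def Protocol.ratio (y y' : Y) (τ : List F) : ℝ :=
  if P.v y τ ≤ 2 * P.v y' τ then 1 else 0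

theorem sender_bound (T : (List F → ℝ) → Prop) {x x' : X} {y y' : Y} (h1 : f x y = f x y')
    (h2 : f x' y ≠ f x' y') (hT : T (P.ratio y y')) {δ ε ε' : ℝ} (hc : P.Correct f δ)
    (hr : P.ReceiverPrivate T ε) (hs : P.SenderPrivate f T ε') :
    1 ≤ 6 * δ + 2 * ε + 2 * ε' := by
  set g := P.ratio y y' with hg
  -- at `y'`, `x` the test accepts with probability at least one half
  have e1 : 1 / 2 ≤ P.expect x y' g := by
    have h3 : P.expect x y' (fun τ => 1 - g τ) ≤ 1 / 2 := by
      rw [P.expect_eq]
      have h4 := P.expect_one x y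
      rw [P.expect_eq] at h4
      calc ∑ τ : Fin P.n → F, P.v y' (List.ofFn τ) * P.w x (List.ofFn τ) * (1 - g (List.ofFn τ))
          ≤ ∑ τ : Fin P.n → F, (1 / 2) * (P.v y (List.ofFn τ) * P.w x (List.ofFn τ) * 1) := by
            refine sum_le_sum fun τ _ => ?_
            have hw := P.w_nonneg x (List.ofFn τ)
            have hv := P.v_nonneg y (List.ofFn τ)
            rw [hg, Protocol.ratio]
            split
            · nlinarith [mul_nonneg hv hw]
            · rename_i h
              push Not at h
              nlinarith [mul_le_mul_of_nonneg_right h.le hw]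
        _ = 1 / 2 := by rw [← mul_sum, h4, mul_one]
    have h5 := P.expect_sub x y' (fun _ => 1) g
    rw [P.expect_one] at h5
    linarith
  -- at `y`, `x'` the test accepts with small probability
  have e2 : P.expect x' y g ≤ 3 * δ := by
    rw [P.expect_eq]
    have h3 := sum_out_le P x' y' hc h2
    have h4 := hc x' y
    rw [P.error_eq] at h4
    calc ∑ τ : Fin P.n → F, P.v y (List.ofFn τ) * P.w x' (List.ofFn τ) * g (List.ofFn τ)
        ≤ ∑ τ : Fin P.n → F, (2 * (P.v y' (List.ofFn τ) *
            P.outProb x' (f x' y) (List.ofFn τ)) + P.v y (List.ofFn τ) *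
            (P.w x' (List.ofFn τ) - P.outProb x' (f x' y) (List.ofFn τ))) := by
          refine sum_le_sum fun τ _ => ?_
          have hw := P.w_nonneg x' (List.ofFn τ)
          have hv := P.v_nonneg y (List.ofFn τ)
          have hv' := P.v_nonneg y' (List.ofFn τ)
          have ho := P.outProb_nonneg x' (f x' y) (List.ofFn τ)
          have hl := P.outProb_le x' (f x' y) (List.ofFn τ)
          rw [hg, Protocol.ratio]
          split
          · rename_i h
            nlinarith [mul_le_mul_of_nonneg_right h ho]
          · nlinarith [mul_nonneg hv (sub_nonneg.2 hl), mul_nonneg hv' ho]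
      _ = 2 * ∑ τ : Fin P.n → F, P.v y' (List.ofFn τ) * P.outProb x' (f x' y) (List.ofFn τ) +
          ∑ τ : Fin P.n → F, P.v y (List.ofFn τ) *
            (P.w x' (List.ofFn τ) - P.outProb x' (f x' y) (List.ofFn τ)) := by
          rw [sum_add_distrib, ← mul_sum]
      _ ≤ 2 * δ + δ := by linarith
      _ = 3 * δ := by ring
  have a1 := abs_le.1 (hs x y y' g h1 hT)
  have a2 := abs_le.1 (hr x x' y g hT)
  linarith [a1.1, a1.2, a2.1, a2.2]

end bounds

end sums

section main

variable [CommRing F] [Fintype F]

/-- a party whose coins enter affinely up to `K` branches -/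
theorem branches (P : Protocol F X Y Z a r b t) {f : X → Y → Z} {K : ℕ} {δ ε ε' : ℝ}
    (hf : ∃ x x' y y', f x y = f x y' ∧ f x' y ≠ f x' y') (hc : P.Correct f δ)
    (hr : P.ReceiverPrivate (P.IsTest K) ε) (hs : P.SenderPrivate f (P.IsTest K) ε')
    (hlt : 6 * δ + 2 * ε + 2 * ε' < 1) :
    ((∀ y, (P.sender y).Affine) → K < a) ∧ ((∀ x, (P.receiver x).Affine) → K < b) := by
  classical
  obtain ⟨x, x', y, y', h1, h2⟩ := hf
  constructor
  · intro hA
    by_contra hn
    have hT : P.IsTest K (P.ratio y y') :=
      Or.inl ⟨y, y', not_lt.1 hn, hA y, hA y', fun τ => rfl⟩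
    have := sender_bound P (P.IsTest K) h1 h2 hT hc hr hs
    linarith
  · intro hA
    by_contra hn
    have hT : P.IsTest K (P.post x' (f x' y')) :=
      Or.inr ⟨x', f x' y', not_lt.1 hn, hA x', fun τ => rfl⟩
    have h3 := receiver_bound P (P.IsTest K) h1 h2 hT hc hr hs
    have h4 := (abs_nonneg _).trans (hr x x y _ hT)
    have h5 := (abs_nonneg _).trans (hs x y y _ rfl hT)
    have h6 : 0 ≤ δ := by
      refine le_trans ?_ (hc x y)
      rw [P.error_eq]
      exact sum_nonneg fun τ _ => mul_nonneg (P.v_nonneg _ _)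
        (sub_nonneg.2 (P.outProb_le x _ _))
    linarith

end main

end Pool.Agent.T9h61.OTC
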